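import Mathlib

/-! A countable chain into which all countable well orders embed contains a copy of the rationals. -/

namespace Pool.Agent.H97.UC

open Set Ordinal Cardinal

instance sumWF {α β : Type} [LinearOrder α] [LinearOrder β] [WellFoundedLT α] [WellFoundedLT β] :
    WellFoundedLT (α ⊕ₗ β) := ⟨Sum.lex_wf wellFounded_lt wellFounded_lt⟩

instance sumCt {α β : Type} [Countable α] [Countable β] : Countable (α ⊕ₗ β) :=
  inferInstanceAs (Countable (α ⊕ β))

/-- every countable well order embeds in `S` -/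
def Big (S : Type) [LinearOrder S] : Prop :=
  ∀ (W : Type) [LinearOrder W] [WellFoundedLT W] [Countable W], Nonempty (W ↪o S)

theorem Big.mono {S T : Type} [LinearOrder S] [LinearOrder T] (h : Big S) (f : S ↪o T) : Big T :=
  fun W _ _ _ => (h W).map fun g => g.trans f

theorem notBig {S : Type} [LinearOrder S] (h : ¬ Big S) :
    ∃ o : Ordinal.{0}, o < ω₁ ∧ ¬ Nonempty (o.ToType ↪o S) := by
  simp only [Big, not_forall] at h
  obtain ⟨W, i1, i2, i3, hW⟩ := h
  refine ⟨Ordinal.type (α := W) (· < ·), ?_, fun ⟨f⟩ => hW ?_⟩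
  · rw [← ord_aleph, lt_ord, card_type]
    exact (mk_le_aleph0_iff.2 i3).trans_lt aleph0_lt_aleph_one
  · have h1 : Ordinal.type (α := W) (· < ·) =
      Ordinal.type (α := (Ordinal.type (α := W) (· < ·)).ToType) (· < ·) := (type_toType _).symm
    obtain ⟨e⟩ := type_eq.1 h1
    exact ⟨(OrderIso.ofRelIsoLT e).toOrderEmbedding.trans f⟩

theorem countable_toType {o : Ordinal.{0}} (h : o < ω₁) : Countable o.ToType := by
  rw [← ord_aleph, lt_ord] at h
  rw [← mk_le_aleph0_iff, mk_toType]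
  exact Order.lt_succ_iff.1 (by rwa [succ_aleph0])

/-- countably many countable well orders embed in one countable well order -/
theorem dom {ι : Type} [Countable ι] (o : ι → Ordinal.{0}) (h : ∀ i, o i < ω₁) :
    ∃ μ : Ordinal.{0}, μ < ω₁ ∧ ∀ i, Nonempty ((o i).ToType ↪o μ.ToType) := by
  refine ⟨⨆ i, o i, iSup_lt_omega_one h, fun i => ?_⟩
  have h1 : Ordinal.type (α := (o i).ToType) (· < ·) ≤
      Ordinal.type (α := (⨆ i, o i).ToType) (· < ·) := by
    rw [type_toType, type_toType]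
    exact Ordinal.le_iSup o i
  obtain ⟨f⟩ := type_le_iff'.1 h1
  exact ⟨OrderEmbedding.ofStrictMono f fun _ _ h => f.map_rel_iff.2 h⟩

section

variable {A : Type} [LinearOrder A]

def emIoo {a b c d : A} (h1 : c ≤ a) (h2 : b ≤ d) : Ioo a b ↪o Ioo c d :=
  OrderEmbedding.ofStrictMono (fun x => ⟨x.1, h1.trans_lt x.2.1, x.2.2.trans_le h2⟩) fun _ _ h => h

theorem not_big_empty {a : A} : ¬ Big (Ioo a a) := fun h => by
  obtain ⟨f⟩ := h PUnit
  have := (f PUnit.unit).2
  exact absurd (this.1.trans this.2) (lt_irrefl _)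

theorem big_left_or_right {a b c : A} (h : Big (Ioo a c)) : Big (Ioo a b) ∨ Big (Ioo b c) := by
  by_contra hc
  rw [not_or] at hc
  obtain ⟨o, h1, h2⟩ := notBig hc.1
  obtain ⟨p, h3, h4⟩ := notBig hc.2
  have := countable_toType h1
  have := countable_toType h3
  obtain ⟨f⟩ := h ((o.ToType ⊕ₗ PUnit) ⊕ₗ p.ToType)
  by_cases hb : (f (toLex (.inl (toLex (.inr PUnit.unit))))).1 ≤ b
  · refine h2 ⟨OrderEmbedding.ofStrictMono (fun x => ⟨(f (toLex (.inl (toLex (.inl x))))).1, (f _).2.1, ?_⟩) fun x y hxy => ?_⟩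
    · refine lt_of_lt_of_le ?_ hb
      exact f.lt_iff_lt.2 (Sum.Lex.inl_lt_inl_iff.2 (Sum.Lex.inl_lt_inr _ _))
    · exact f.lt_iff_lt.2 (Sum.Lex.inl_lt_inl_iff.2 (Sum.Lex.inl_lt_inl_iff.2 hxy))
  · refine h4 ⟨OrderEmbedding.ofStrictMono (fun x => ⟨(f (toLex (.inr x))).1, ?_, (f _).2.2⟩) fun x y hxy => ?_⟩
    · refine (not_le.1 hb).trans ?_
      exact f.lt_iff_lt.2 (Sum.Lex.inl_lt_inr _ _)
    · exact f.lt_iff_lt.2 (Sum.Lex.inr_lt_inr_iff.2 hxy)

theorem split [Countable A] {a b : A} (h : Big (Ioo a b)) : ∃ c, Big (Ioo a c) ∧ Big (Ioo c b) := by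
  by_contra hc
  push Not at hc
  have : ∀ c : A, ∃ o : Ordinal.{0}, o < ω₁ ∧
      (¬ Nonempty (o.ToType ↪o Ioo a c) ∨ ¬ Nonempty (o.ToType ↪o Ioo c b)) := fun c => by
    by_cases h1 : Big (Ioo a c)
    · obtain ⟨o, h2, h3⟩ := notBig (hc c h1)
      exact ⟨o, h2, Or.inr h3⟩
    · obtain ⟨o, h2, h3⟩ := notBig h1
      exact ⟨o, h2, Or.inl h3⟩
  choose o ho hn using this
  obtain ⟨μ, hμ, hd⟩ := dom o ho
  have := countable_toType hμ
  obtain ⟨f⟩ := h ((μ.ToType ⊕ₗ PUnit) ⊕ₗ μ.ToType)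
  set c : A := (f (toLex (.inl (toLex (.inr PUnit.unit))))).1 with hcdef
  obtain ⟨g⟩ := hd c
  rcases hn c with h1 | h1
  · refine h1 ⟨g.trans (OrderEmbedding.ofStrictMono
      (fun x => ⟨(f (toLex (.inl (toLex (.inl x))))).1, (f _).2.1, ?_⟩) fun x y hxy => ?_)⟩
    · exact f.lt_iff_lt.2 (Sum.Lex.inl_lt_inl_iff.2 (Sum.Lex.inl_lt_inr _ _))
    · exact f.lt_iff_lt.2 (Sum.Lex.inl_lt_inl_iff.2 (Sum.Lex.inl_lt_inl_iff.2 hxy))
  · refine h1 ⟨g.trans (OrderEmbedding.ofStrictMono
      (fun x => ⟨(f (toLex (.inr x))).1, ?_, (f _).2.2⟩) fun x y hxy => ?_)⟩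
    · exact f.lt_iff_lt.2 (Sum.Lex.inl_lt_inr _ _)
    · exact f.lt_iff_lt.2 (Sum.Lex.inr_lt_inr_iff.2 hxy)

theorem start [Countable A] (h : Big A) : ∃ a b : A, Big (Ioo a b) := by
  by_contra hc
  push Not at hc
  have : ∀ p : A × A, ∃ o : Ordinal.{0}, o < ω₁ ∧ ¬ Nonempty (o.ToType ↪o Ioo p.1 p.2) :=
    fun p => notBig (hc p.1 p.2)
  choose o ho hn using this
  obtain ⟨μ, hμ, hd⟩ := dom o ho
  have := countable_toType hμ
  obtain ⟨f⟩ := h ((PUnit ⊕ₗ μ.ToType) ⊕ₗ PUnit)
  obtain ⟨g⟩ := hd (f (toLex (.inl (toLex (.inl PUnit.unit)))), f (toLex (.inr PUnit.unit)))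
  refine hn _ ⟨g.trans (OrderEmbedding.ofStrictMono
      (fun x => ⟨f (toLex (.inl (toLex (.inr x)))), ?_, ?_⟩) fun x y hxy => ?_)⟩
  · exact f.lt_iff_lt.2 (Sum.Lex.inl_lt_inl_iff.2 (Sum.Lex.inl_lt_inr _ _))
  · exact f.lt_iff_lt.2 (Sum.Lex.inl_lt_inr _ _)
  · exact f.lt_iff_lt.2 (Sum.Lex.inl_lt_inl_iff.2 (Sum.Lex.inr_lt_inr_iff.2 hxy))

/-- the interval between the two points is not big -/
def near (a b : A) : Prop := ¬ Big (Ioo (min a b) (max a b))

theorem near_symm {a b : A} (h : near a b) : near b a := by rwa [near, min_comm, max_comm]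

theorem near_self (a : A) : near a a := by
  rw [near, min_self, max_self]
  exact not_big_empty

theorem near_trans {a b c : A} (h1 : near a b) (h2 : near b c) : near a c := by
  wlog hac : a ≤ c generalizing a c
  · exact near_symm (this (a := c) (c := a) (near_symm h2) (near_symm h1) (le_of_not_ge hac))
  intro h
  rw [min_eq_left hac, max_eq_right hac] at h
  rcases big_left_or_right (b := b) h with h3 | h3
  · exact h1 (h3.mono (emIoo (min_le_left _ _) (le_max_right _ _)))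
  · exact h2 (h3.mono (emIoo (min_le_left _ _) (le_max_right _ _)))

def nearSetoid (A : Type) [LinearOrder A] : Setoid A where
  r := near
  iseqv :=
    { refl := near_self
      symm := near_symm
      trans := near_trans }

theorem rat_of_big [Countable A] (h : Big A) : Nonempty (ℚ ↪o A) := by
  let _ : Setoid A := nearSetoid A
  let rep : A → A := fun a => (Quotient.mk (nearSetoid A) a).out
  have hrep : ∀ a, near (rep a) a := fun a => Quotient.exact (Quotient.out_eq (Quotient.mk (nearSetoid A) a))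
  have hrr : ∀ a b, near a b → rep a = rep b := fun a b hab => congrArg Quotient.out (Quotient.sound hab)
  let D : Set A := range rep
  have hD : ∀ a ∈ D, ∀ b ∈ D, a < b → Big (Ioo a b) := by
    rintro _ ⟨a, rfl⟩ _ ⟨b, rfl⟩ hlt
    by_contra hn
    have h1 : near (rep a) (rep b) := by rwa [near, min_eq_left hlt.le, max_eq_right hlt.le]
    have h2 : near a b := near_trans (near_symm (hrep a)) (near_trans h1 (hrep b))
    exact hlt.ne (hrr a b h2)
  -- a representative of the class of `c` lies between `a` and `b` when `c` is far from both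
  have key : ∀ a b c, Big (Ioo a c) → Big (Ioo c b) → a < rep c ∧ rep c < b := fun a b c h1 h2 => by
    constructor
    · by_contra hn
      rw [not_lt] at hn
      exact hrep c (h1.mono (emIoo ((min_le_left _ _).trans hn) (le_max_right _ _)))
    · by_contra hn
      rw [not_lt] at hn
      exact hrep c (h2.mono (emIoo (min_le_right _ _) (hn.trans (le_max_left _ _))))
  have dense : DenselyOrdered D := ⟨fun a b hab => by
    obtain ⟨c, h1, h2⟩ := split (hD a.1 a.2 b.1 b.2 hab)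
    obtain ⟨h3, h4⟩ := key a.1 b.1 c h1 h2
    exact ⟨⟨rep c, c, rfl⟩, h3, h4⟩⟩
  have nontriv : Nontrivial D := by
    obtain ⟨a, b, hab⟩ := start h
    obtain ⟨c, h1, h2⟩ := split hab
    obtain ⟨d, h3, h4⟩ := split h2
    refine ⟨⟨rep c, c, rfl⟩, ⟨rep d, d, rfl⟩, fun he => ?_⟩
    have he' : rep c = rep d := congrArg Subtype.val he
    have hcd : near c d := near_trans (near_symm (hrep c)) (he' ▸ hrep d)
    refine hcd (h3.mono (emIoo (min_le_left _ _) (le_max_right _ _)))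
  obtain ⟨f⟩ := Order.embedding_from_countable_to_dense ℚ D
  exact ⟨f.trans (OrderEmbedding.subtype _)⟩

end

end Pool.Agent.H97.UC
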