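import Pool.Agent.H97.UC.Big

/-! For every scattered countable chain `W` a countable chain `A = 1 + (W + N*)·ω*` in which every initial interval
strictly below `A` has at most one point, `W` embeds in `A`, `A` does not embed in `W`, and `A` is not unsecable. -/

namespace Pool.Agent.H97.UC

open Set

/-- `D` embeds in every nonempty initial interval of itself -/
def Left (D : Type) [LinearOrder D] : Prop := ∀ d : D, ∃ σ : D → D, StrictMono σ ∧ ∀ x, σ x ≤ d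

theorem left_sum {D X Y : Type} [LinearOrder D] [LinearOrder X] [LinearOrder Y] (hD : Left D)
    (h : Nonempty (D ↪o (X ⊕ₗ Y))) : Nonempty (D ↪o X) ∨ Nonempty (D ↪o Y) := by
  obtain ⟨g⟩ := h
  by_cases hc : ∃ (d : D) (x : X), g d = Sum.inlₗ x
  · obtain ⟨d, x, hd⟩ := hc
    obtain ⟨σ, h1, h2⟩ := hD d
    have hall : ∀ e, ∃ t : X, g (σ e) = Sum.inlₗ t := fun e => by
      have hle : g (σ e) ≤ g d := g.monotone (h2 e)
      rw [hd] at hle
      induction h : g (σ e) using Lex.rec with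
      | _ a =>
      rcases a with a | a
      · exact ⟨a, rfl⟩
      · rw [h] at hle
        exact absurd (Sum.Lex.inl_lt_inr x a) hle.not_gt
    choose t ht using hall
    refine Or.inl ⟨OrderEmbedding.ofStrictMono t fun a b hab => ?_⟩
    have h4 : g (σ a) < g (σ b) := g.strictMono (h1 hab)
    rw [ht a, ht b] at h4
    exact Sum.Lex.inl_lt_inl_iff.mp h4
  · push Not at hc
    have hall : ∀ e : D, ∃ t : Y, g e = Sum.inrₗ t := fun e => by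
      induction h : g e using Lex.rec with
      | _ a =>
      rcases a with a | a
      · exact absurd h (hc e a)
      · exact ⟨a, rfl⟩
    choose t ht using hall
    refine Or.inr ⟨OrderEmbedding.ofStrictMono t fun a b hab => ?_⟩
    have h4 : g a < g b := g.strictMono hab
    rw [ht a, ht b] at h4
    exact Sum.Lex.inr_lt_inr_iff.mp h4

section

variable {P : Type} [LinearOrder P]

/-- the number of the copy of `P` in which a point of `P·ω*` lies -/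
def co (x : ℕᵒᵈ ×ₗ P) : ℕ := OrderDual.ofDual (ofLex x).1

theorem co_anti {x y : ℕᵒᵈ ×ₗ P} (h : x ≤ y) : co y ≤ co x := by
  have := Prod.Lex.monotone_fst _ _ h
  exact this

theorem lt_of_co {x y : ℕᵒᵈ ×ₗ P} (h : co y < co x) : x < y := by
  rw [Prod.Lex.lt_iff]
  exact Or.inl h

theorem snd_lt {x y : ℕᵒᵈ ×ₗ P} (h : x < y) (hc : co x = co y) : (ofLex x).2 < (ofLex y).2 := by
  rw [Prod.Lex.lt_iff] at h
  rcases h with h | h
  · exact absurd hc (ne_of_gt h)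
  · exact h.2

def sh (n : ℕ) (x : ℕᵒᵈ ×ₗ P) : ℕᵒᵈ ×ₗ P := toLex (OrderDual.toDual (co x + n + 1), (ofLex x).2)

omit [LinearOrder P] in
theorem sh_co (n : ℕ) (x : ℕᵒᵈ ×ₗ P) : co (sh n x) = co x + n + 1 := rfl

theorem sh_mono (n : ℕ) : StrictMono (sh (P := P) n) := fun x y h => by
  rcases (co_anti h.le).lt_or_eq with h1 | h1
  · exact lt_of_co (by rw [sh_co, sh_co]; omega)
  · have h3 : (ofLex x).2 < (ofLex y).2 := snd_lt h h1.symm
    rw [Prod.Lex.lt_iff]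
    refine Or.inr ⟨?_, h3⟩
    show OrderDual.toDual (co x + n + 1) = OrderDual.toDual (co y + n + 1)
    rw [h1]

theorem sh_lt (d x : ℕᵒᵈ ×ₗ P) : sh (co d) x < d := lt_of_co (by rw [sh_co]; omega)

theorem left_stack : Left (ℕᵒᵈ ×ₗ P) := fun d => ⟨sh (co d), sh_mono _, fun x => (sh_lt d x).le⟩

theorem into_copy [Nonempty P] {d₀ : ℕᵒᵈ ×ₗ P} (g : (ℕᵒᵈ ×ₗ P) → (ℕᵒᵈ ×ₗ P)) (hg : StrictMono g)
    (h : ∀ x, d₀ < g x) : Nonempty ((ℕᵒᵈ ×ₗ P) ↪o P) := by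
  obtain ⟨p⟩ := ‹Nonempty P›
  have hne : (range fun x => co (g x)).Nonempty := ⟨_, toLex (OrderDual.toDual 0, p), rfl⟩
  have hb : BddAbove (range fun x => co (g x)) :=
    ⟨co d₀, by rintro _ ⟨x, rfl⟩; exact co_anti (h x).le⟩
  obtain ⟨d, hd⟩ := Nat.sSup_mem hne hb
  have hmax : ∀ x, co (g x) ≤ co (g d) := fun x => by
    have h1 : co (g x) ≤ sSup (range fun x => co (g x)) := le_csSup hb ⟨x, rfl⟩
    rw [← hd] at h1
    exact h1
  have heq : ∀ x, co (g (sh (co d) x)) = co (g d) := fun x =>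
    le_antisymm (hmax _) (co_anti (hg.monotone (sh_lt d x).le))
  refine ⟨OrderEmbedding.ofStrictMono (fun x => (ofLex (g (sh (co d) x))).2) fun x y hxy => ?_⟩
  exact snd_lt (hg (sh_mono _ hxy)) ((heq x).trans (heq y).symm)

end

section

variable {W N : Type} [LinearOrder W] [LinearOrder N] [WellFoundedLT N] [Nonempty N]

def inN (k : ℕ) (x : N) : ℕᵒᵈ ×ₗ (W ⊕ₗ Nᵒᵈ) :=
  toLex (OrderDual.toDual k, toLex (.inr (OrderDual.toDual x)))

omit [WellFoundedLT N] [Nonempty N] in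
theorem inN_lt {k : ℕ} {x y : N} (h : x < y) : (inN k y : ℕᵒᵈ ×ₗ (W ⊕ₗ Nᵒᵈ)) < inN k x := by
  rw [Prod.Lex.lt_iff]
  exact Or.inr ⟨rfl, Sum.Lex.inr_lt_inr_iff.2 h⟩

omit [WellFoundedLT N] [Nonempty N] in
theorem inN_lt' {k l : ℕ} (h : k < l) (x y : N) : (inN l y : ℕᵒᵈ ×ₗ (W ⊕ₗ Nᵒᵈ)) < inN k x :=
  lt_of_co h

omit [WellFoundedLT N] [Nonempty N] in
theorem N_of {Z : Type} [LinearOrder Z] (f : (ℕᵒᵈ ×ₗ (W ⊕ₗ Nᵒᵈ)) ↪o Z) : Nonempty (Nᵒᵈ ↪o Z) :=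
  ⟨OrderEmbedding.ofStrictMono (fun x => f (inN 0 (OrderDual.ofDual x))) fun x y h => by
    refine f.lt_iff_lt.2 ?_
    rw [Prod.Lex.lt_iff]
    exact Or.inr ⟨rfl, Sum.Lex.inr_lt_inr_iff.2 h⟩⟩

theorem not_down (hW : ¬ Nonempty (Nᵒᵈ ↪o W)) (d₀ : ℕᵒᵈ ×ₗ (W ⊕ₗ Nᵒᵈ))
    (g : (ℕᵒᵈ ×ₗ (W ⊕ₗ Nᵒᵈ)) → (ℕᵒᵈ ×ₗ (W ⊕ₗ Nᵒᵈ))) (hg : StrictMono g) (h : ∀ x, d₀ < g x) :
    False := by
  obtain ⟨n₀⟩ := ‹Nonempty N›
  have : Nonempty (W ⊕ₗ Nᵒᵈ) := ⟨toLex (.inr (OrderDual.toDual n₀))⟩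
  rcases left_sum left_stack (into_copy g hg h) with ⟨⟨f⟩⟩ | ⟨⟨f⟩⟩
  · exact hW (N_of f)
  · let φ : ℕ → N → N := fun k x => OrderDual.ofDual (f (inN k x))
    have h1 : StrictMono (φ 0) := fun x y hxy => f.lt_iff_lt.2 (inN_lt hxy)
    have h2 : φ 0 (φ 1 n₀) < φ 1 n₀ := f.lt_iff_lt.2 (inN_lt' one_pos _ _)
    exact absurd (h1.le_apply (x := φ 1 n₀)) (not_le.2 h2)

end

end Pool.Agent.H97.UC
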